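import Mathlib

/-!
# Good involutions of connected noninvolutory quandles

For every `n` there is a finite connected noninvolutory quandle with at least `n` good
involutions.  The case `n = 2` refutes the conjecture that a connected noninvolutory quandle has
at most one good involution.
-/

namespace Pool.Agent.Results.MP_f5f603_al.ManyGoodInvolutions

/-- `op` is a quandle operation on `R` (right translations `x ↦ x * y` are bijective). -/
structure IsQuandle {R : Type} (op : R → R → R) : Prop where
  /-- idempotency `x * x = x` -/
  idem : ∀ x, op x x = x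
  /-- every right translation `s_y : x ↦ x * y` is a bijection -/
  bij : ∀ y, Function.Bijective (fun x => op x y)
  /-- right self-distributivity `(x * y) * z = (x * z) * (y * z)` -/
  dist : ∀ x y z, op (op x y) z = op (op x z) (op y z)

/-- The right translation `s_y : x ↦ x * y` of a quandle as a permutation. -/
noncomputable def rightTranslation {R : Type} {op : R → R → R} (h : IsQuandle op) (y : R) :
    Equiv.Perm R :=
  Equiv.ofBijective (fun x => op x y) (h.bij y)

/-- The quandle is connected: the group generated by all right translations is transitive. -/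
def IsConnectedQuandle {R : Type} {op : R → R → R} (h : IsQuandle op) : Prop :=
  Nonempty R ∧
    ∀ a b : R, ∃ g ∈ Subgroup.closure (Set.range (rightTranslation h)), g a = b

/-- The quandle is involutory: `(x * y) * y = x` for all `x`, `y`. -/
def IsInvolutory {R : Type} (op : R → R → R) : Prop :=
  ∀ x y, op (op x y) y = x

/-- `ρ` is a good involution of the quandle (in the sense of Kamada): `ρ ∘ ρ = id`,
`ρ (x * y) = ρ x * y`, and `x * ρ y = s_y⁻¹ x`. -/
structure IsGoodInvolution {R : Type} {op : R → R → R} (h : IsQuandle op) (ρ : R → R) :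
    Prop where
  involutive : ∀ x, ρ (ρ x) = x
  map_left : ∀ x y, ρ (op x y) = op (ρ x) y
  right_inv : ∀ x y, op x (ρ y) = (rightTranslation h y).symm x

@[simp] lemma rightTranslation_apply {R : Type} {op : R → R → R} (h : IsQuandle op) (x y : R) :
    rightTranslation h y x = op x y := rfl

/-- A convenient criterion for the third condition. -/
lemma IsGoodInvolution.mk' {R : Type} {op : R → R → R} (h : IsQuandle op) (ρ : R → R)
    (h1 : ∀ x, ρ (ρ x) = x) (h2 : ∀ x y, ρ (op x y) = op (ρ x) y)
    (h3 : ∀ x y, op (op x (ρ y)) y = x) : IsGoodInvolution h ρ where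
  involutive := h1
  map_left := h2
  right_inv x y := by
    rw [Equiv.eq_symm_apply]
    exact h3 x y

lemma IsGoodInvolution.cancel {R : Type} {op : R → R → R} {h : IsQuandle op} {ρ : R → R}
    (hρ : IsGoodInvolution h ρ) (x y : R) : op (op x (ρ y)) y = x := by
  have := hρ.right_inv x y
  rw [Equiv.eq_symm_apply] at this
  exact this

/-! ### Products -/

/-- The product operation. -/
def prodOp {R S : Type} (op : R → R → R) (op' : S → S → S) (x y : R × S) : R × S :=
  (op x.1 y.1, op' x.2 y.2)

lemma prod_isQuandle {R S : Type} {op : R → R → R} {op' : S → S → S} (h : IsQuandle op)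
    (h' : IsQuandle op') : IsQuandle (prodOp op op') where
  idem x := by simp [prodOp, h.idem, h'.idem]
  bij y := by
    have := Function.Bijective.prodMap (h.bij y.1) (h'.bij y.2)
    exact this
  dist x y z := by
    simp only [prodOp]
    rw [h.dist, h'.dist]

/-- In a product of quandles one can move the first coordinate by any element of the group
generated by the right translations, keeping the second coordinate fixed. -/
lemma prod_move_left {R S : Type} {op : R → R → R} {op' : S → S → S} (h : IsQuandle op)
    (h' : IsQuandle op') (s : S) (g : Equiv.Perm R)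
    (hg : g ∈ Subgroup.closure (Set.range (rightTranslation h))) :
    ∃ k ∈ Subgroup.closure (Set.range (rightTranslation (prod_isQuandle h h'))),
      ∀ r : R, k (r, s) = (g r, s) := by
  induction hg using Subgroup.closure_induction with
  | mem x hx =>
    obtain ⟨y, rfl⟩ := hx
    refine ⟨rightTranslation (prod_isQuandle h h') (y, s), Subgroup.subset_closure ⟨_, rfl⟩, ?_⟩
    intro r
    simp [prodOp, h'.idem]
  | one => exact ⟨1, one_mem _, by simp⟩
  | mul x y _ _ hx hy =>
    obtain ⟨k, hk, hk'⟩ := hx
    obtain ⟨l, hl, hl'⟩ := hy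
    refine ⟨k * l, mul_mem hk hl, ?_⟩
    intro r
    simp [hk', hl']
  | inv x _ hx =>
    obtain ⟨k, hk, hk'⟩ := hx
    refine ⟨k⁻¹, inv_mem hk, ?_⟩
    intro r
    rw [Equiv.Perm.inv_eq_iff_eq, hk']
    simp

lemma prod_move_right {R S : Type} {op : R → R → R} {op' : S → S → S} (h : IsQuandle op)
    (h' : IsQuandle op') (r : R) (g : Equiv.Perm S)
    (hg : g ∈ Subgroup.closure (Set.range (rightTranslation h'))) :
    ∃ k ∈ Subgroup.closure (Set.range (rightTranslation (prod_isQuandle h h'))),
      ∀ s : S, k (r, s) = (r, g s) := by
  induction hg using Subgroup.closure_induction with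
  | mem x hx =>
    obtain ⟨y, rfl⟩ := hx
    refine ⟨rightTranslation (prod_isQuandle h h') (r, y), Subgroup.subset_closure ⟨_, rfl⟩, ?_⟩
    intro s
    simp [prodOp, h.idem]
  | one => exact ⟨1, one_mem _, by simp⟩
  | mul x y _ _ hx hy =>
    obtain ⟨k, hk, hk'⟩ := hx
    obtain ⟨l, hl, hl'⟩ := hy
    refine ⟨k * l, mul_mem hk hl, ?_⟩
    intro s
    simp [hk', hl']
  | inv x _ hx =>
    obtain ⟨k, hk, hk'⟩ := hx
    refine ⟨k⁻¹, inv_mem hk, ?_⟩
    intro s
    rw [Equiv.Perm.inv_eq_iff_eq, hk']
    simp

/-- The product of two connected quandles is connected. -/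
lemma prod_isConnected {R S : Type} {op : R → R → R} {op' : S → S → S} {h : IsQuandle op}
    {h' : IsQuandle op'} (hc : IsConnectedQuandle h) (hc' : IsConnectedQuandle h') :
    IsConnectedQuandle (prod_isQuandle h h') := by
  obtain ⟨hn, hc⟩ := hc
  obtain ⟨hn', hc'⟩ := hc'
  refine ⟨inferInstance, ?_⟩
  rintro ⟨a, s⟩ ⟨b, t⟩
  obtain ⟨g, hg, hgab⟩ := hc a b
  obtain ⟨g', hg', hgst⟩ := hc' s t
  obtain ⟨k, hk, hk'⟩ := prod_move_left h h' s g hg
  obtain ⟨l, hl, hl'⟩ := prod_move_right h h' b g' hg'
  refine ⟨l * k, mul_mem hl hk, ?_⟩
  rw [Equiv.Perm.mul_apply, hk', hgab, hl', hgst]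

lemma prod_good {R S : Type} {op : R → R → R} {op' : S → S → S} {h : IsQuandle op}
    {h' : IsQuandle op'} {ρ : R → R} {σ : S → S} (hρ : IsGoodInvolution h ρ)
    (hσ : IsGoodInvolution h' σ) :
    IsGoodInvolution (prod_isQuandle h h') (Prod.map ρ σ) := by
  apply IsGoodInvolution.mk'
  · rintro ⟨x, y⟩
    simp [hρ.involutive, hσ.involutive]
  · rintro ⟨x, y⟩ ⟨z, w⟩
    simp [prodOp, hρ.map_left, hσ.map_left]
  · rintro ⟨x, y⟩ ⟨z, w⟩
    simp only [prodOp, Prod.map_fst, Prod.map_snd]
    rw [hρ.cancel, hσ.cancel]

/-- If every element can be moved to any other one by two right translations, the quandle is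
connected. -/
lemma connected_of_two_steps {R : Type} [Nonempty R] {op : R → R → R} (h : IsQuandle op)
    (H : ∀ a b, ∃ y z, op (op a y) z = b) : IsConnectedQuandle h := by
  refine ⟨inferInstance, fun a b => ?_⟩
  obtain ⟨y, z, hyz⟩ := H a b
  refine ⟨rightTranslation h z * rightTranslation h y,
    mul_mem (Subgroup.subset_closure ⟨z, rfl⟩) (Subgroup.subset_closure ⟨y, rfl⟩), ?_⟩
  simpa using hyz

/-! ### Two small quandles

The first one consists of the twelve roots `±e_i ± e_j` of the root system `A_3 = D_3`, with
`x * y = (x, y) y - x` (the half turn about the axis `y`); it is involutory and connected and the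
antipodal map is a good involution.  The second one consists of the six unit vectors `±e_i`, where
`x * y` is the image of `x` under the quarter turn about the oriented axis `y`.
Both are given by tables (packed into a numeral in base 16, respectively 8); in both cases the
antipodal map is `Fin.rev`. -/

/-- The quandle of the twelve roots of `D_3`, `x * y = (x, y) y - x`. -/
def rootOp (x y : Fin 12) : Fin 12 :=
  Fin.ofNat 12 ((175112344036593189685576132898094612961994824522484700846691782412901933573294316782646248563879397260163693006834534042779684596834662877872890230553199847859754291172063072 >>> (4 * (12 * x.val + y.val))) % 16)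

/-- The quandle of the six unit vectors, `x * y` is `x` turned by 90 degrees about `y`. -/
def octOp (x y : Fin 6) : Fin 6 :=
  Fin.ofNat 6 ((215616273733927901628981675045648 >>> (3 * (6 * x.val + y.val))) % 8)

lemma rootOp_idem : ∀ x, rootOp x x = x := by decide +kernel

lemma rootOp_dist : ∀ x y z, rootOp (rootOp x y) z = rootOp (rootOp x z) (rootOp y z) := by
  decide +kernel

lemma rootOp_invol : ∀ x y, rootOp (rootOp x y) y = x := by decide +kernel

lemma rootOp_steps : ∀ a b, ∃ y z, rootOp (rootOp a y) z = b := by decide +kernel

lemma rootOp_rev : ∀ x y, (rootOp x y).rev = rootOp x.rev y := by decide +kernel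

lemma rootOp_rev_right : ∀ x y, rootOp (rootOp x y.rev) y = x := by decide +kernel

lemma octOp_idem : ∀ x, octOp x x = x := by decide +kernel

lemma octOp_dist : ∀ x y z, octOp (octOp x y) z = octOp (octOp x z) (octOp y z) := by
  decide +kernel

lemma octOp_steps : ∀ a b, ∃ y z, octOp (octOp a y) z = b := by decide +kernel

lemma octOp_rev : ∀ x y, (octOp x y).rev = octOp x.rev y := by decide +kernel

lemma octOp_rev_right : ∀ x y, octOp (octOp x y.rev) y = x := by decide +kernel

lemma octOp_not_invol : ¬ ∀ x y, octOp (octOp x y) y = x := by decide +kernel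

/-- The twelve-element quandle. -/
lemma root_isQuandle : IsQuandle rootOp where
  idem := rootOp_idem
  bij y := by
    refine Function.Involutive.bijective (fun x => ?_)
    exact rootOp_invol x y
  dist := rootOp_dist

/-- The six-element quandle. -/
lemma oct_isQuandle : IsQuandle octOp where
  idem := octOp_idem
  bij y := by
    refine Finite.injective_iff_bijective.mp ?_
    intro a b hab
    have h1 := octOp_rev_right a y.rev
    have h2 := octOp_rev_right b y.rev
    simp only [Fin.rev_rev] at h1 h2
    rw [← h1, ← h2]
    exact congrArg (fun t => octOp t y.rev) hab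
  dist := octOp_dist

lemma root_connected : IsConnectedQuandle root_isQuandle :=
  connected_of_two_steps _ rootOp_steps

lemma oct_connected : IsConnectedQuandle oct_isQuandle :=
  connected_of_two_steps _ octOp_steps

lemma root_good_id : IsGoodInvolution root_isQuandle id :=
  IsGoodInvolution.mk' _ _ (fun _ => rfl) (fun _ _ => rfl) (fun x y => rootOp_invol x y)

lemma root_good_rev : IsGoodInvolution root_isQuandle Fin.rev :=
  IsGoodInvolution.mk' _ _ (fun x => Fin.rev_rev x) rootOp_rev rootOp_rev_right

lemma oct_good_rev : IsGoodInvolution oct_isQuandle Fin.rev :=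
  IsGoodInvolution.mk' _ _ (fun x => Fin.rev_rev x) octOp_rev octOp_rev_right

/-- Inductive step: from `n + 1` good involutions to `n + 2`. -/
lemma step {R : Type} {op : R → R → R} {h : IsQuandle op} [Nonempty R] {n : ℕ}
    (F : Fin (n + 1) → (R → R)) (hF : Function.Injective F)
    (hg : ∀ i, IsGoodInvolution h (F i)) :
    ∃ G : Fin (n + 2) → (Fin 12 × R → Fin 12 × R), Function.Injective G ∧
      ∀ i, IsGoodInvolution (prod_isQuandle root_isQuandle h) (G i) := by
  refine ⟨Fin.cons (Prod.map Fin.rev (F 0)) (fun i => Prod.map id (F i)), ?_, ?_⟩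
  · rw [Fin.cons_injective_iff]
    constructor
    · rintro ⟨i, hi⟩
      obtain ⟨r⟩ := ‹Nonempty R›
      have := congrArg Prod.fst (congrFun hi (0, r))
      simp only [Prod.map_apply, id] at this
      exact absurd this (by decide)
    · intro i j hij
      apply hF
      funext r
      have := congrArg Prod.snd (congrFun hij (0, r))
      simpa using this
  · intro i
    refine Fin.cases ?_ (fun j => ?_) i
    · exact prod_good root_good_rev (hg 0)
    · exact prod_good root_good_id (hg j)

/-- **Main theorem.**  For every `n` there is a finite connected noninvolutory quandle which has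
at least `n` pairwise distinct good involutions. -/
theorem result (n : ℕ) :
    ∃ (R : Type) (_ : Finite R) (op : R → R → R) (h : IsQuandle op),
      IsConnectedQuandle h ∧ ¬ IsInvolutory op ∧
        (n : ℕ∞) ≤ {ρ : R → R | IsGoodInvolution h ρ}.encard := by
  suffices H : ∀ m : ℕ, ∃ (R : Type) (_ : Finite R) (op : R → R → R) (h : IsQuandle op),
      IsConnectedQuandle h ∧ ¬ IsInvolutory op ∧
        ∃ F : Fin (m + 1) → (R → R), Function.Injective F ∧ ∀ i, IsGoodInvolution h (F i) by
    obtain ⟨R, hR, op, h, hc, hi, F, hF, hg⟩ := H n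
    refine ⟨R, hR, op, h, hc, hi, ?_⟩
    have h1 : Set.range F ⊆ {ρ : R → R | IsGoodInvolution h ρ} := by
      rintro _ ⟨i, rfl⟩
      exact hg i
    refine le_trans ?_ (Set.encard_le_encard h1)
    rw [← Set.image_univ, hF.encard_image, Set.encard_univ]
    simp
  intro m
  induction m with
  | zero =>
    refine ⟨Fin 6, inferInstance, octOp, oct_isQuandle, oct_connected, octOp_not_invol,
      fun _ => Fin.rev, ?_, fun _ => oct_good_rev⟩
    intro i j _
    ext
    omega
  | succ m ih =>
    obtain ⟨R, hR, op, h, hc, hi, F, hF, hg⟩ := ih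
    have := hc.1
    obtain ⟨G, hG, hGg⟩ := step F hF hg
    refine ⟨Fin 12 × R, inferInstance, prodOp rootOp op, prod_isQuandle root_isQuandle h,
      prod_isConnected root_connected hc, ?_, G, hG, hGg⟩
    intro hinv
    apply hi
    intro x y
    have := congrArg Prod.snd (hinv (0, x) (0, y))
    exact this

end Pool.Agent.Results.MP_f5f603_al.ManyGoodInvolutions
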